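import Pool.Agent.U439.GD.BOX
import Pool.Agent.U115.GD.StmK

/-! GDK-BOX: the count in a box for the corank `k` (after `Pool.Agent.U439.GD.BOX` of helper439,
itself after helper657 and helper911; the equivalence of the two conditions becomes a bijection of
the spaces of solutions). -/

set_option autoImplicit false

open scoped Classical

namespace Pool.Agent.U79.GD

open Finset
open Pool.Agent.U115.GD
open Pool.Agent.Y703.CQ (nr sg prs HB S_EQ ext)
open Pool.Agent.U439.GD (Lb lb LN nr_self nr_symm nd_iff sum_un ext_sum HB_sub)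

theorem cu_eq {G : Cfg} {x : ℕ → ZMod 2} {S : Finset ℕ}
    (h : ∀ p, ¬ (p ∈ S ∧ Hc G p) → x p = 0) (q : ℕ) : cu G x q = x q := by
  unfold cu
  split_ifs with h8
  · rfl
  · exact (h q fun h' => h8 h'.2).symm

/-- gluing of the two parts of a solution -/
noncomputable def glue {ι : Type} (S₀ : Finset ℕ) (p : ι → ℕ) (c : S₀ → ZMod 2) (d : ι → ZMod 2)
    (n : ℕ) : ZMod 2 :=
  if h : n ∈ S₀ then c ⟨n, h⟩ else if h : ∃ l, p l = n then d h.choose else 0

theorem glue_left {ι : Type} {S₀ : Finset ℕ} {p : ι → ℕ} (c : S₀ → ZMod 2) (d : ι → ZMod 2)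
    (u : S₀) : glue S₀ p c d u = c u := by
  unfold glue
  rw [dif_pos u.2]

theorem glue_right {ι : Type} {S₀ : Finset ℕ} {p : ι → ℕ} (hp : Function.Injective p)
    (hd : ∀ i, p i ∉ S₀) (c : S₀ → ZMod 2) (d : ι → ZMod 2) (l : ι) :
    glue S₀ p c d (p l) = d l := by
  have hex : ∃ l', p l' = p l := ⟨l, rfl⟩
  unfold glue
  rw [dif_neg (hd l), dif_pos hex]
  exact congrArg d (hp hex.choose_spec)

section one
variable {G : Cfg} {ι : Type} [Fintype ι] [LinearOrder ι] {J1 : Finset ι} {S₀ : Finset ℕ}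
  {p : ι → ℕ} (f : ℕ → ZMod 2)

theorem sol_iff (hp : Function.Injective p) (hpr : ∀ i, (p i).Prime ∧ p i ≠ 2)
    (hd : ∀ i, p i ∉ S₀) (hJ : ∀ i, Hc G (p i) ↔ i ∈ J1) (x : ℕ → ZMod 2)
    (hx : ∀ q, ¬ (q ∈ S₀ ∪ univ.image p ∧ Hc G q) → x q = 0) :
    Sol G f (S₀ ∪ univ.image p) x ↔
      (∀ u ∈ univ.filter (fun u : S₀ => Hc G (u : ℕ)), ∑ v : S₀, nr u v * (x v + x u) +
        ∑ l, nr u (p l) * (x (p l) + x u) + f u * x u = 0) ∧
      (∀ k ∈ J1, ∑ u : S₀, nr (p k) u * (x u + x (p k)) +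
        ∑ l, Pool.Agent.Y703.CQ.ext (fun e : prs J1 => nr (p e.1.1) (p e.1.2)) k l *
          (x (p l) + x (p k)) + f (p k) * x (p k) = 0) := by
  unfold Sol
  simp only [cu_eq hx]
  constructor
  · intro h
    refine ⟨fun u hu => ?_, fun k hk => ?_⟩
    · have := h u (Finset.mem_union_left _ u.2) (Finset.mem_filter.1 hu).2
      rw [sum_un hp hd] at this
      exact this
    · have := h (p k) (Finset.mem_union_right _ (Finset.mem_image_of_mem _ (Finset.mem_univ _)))
        ((hJ k).2 hk)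
      rw [sum_un hp hd] at this
      rw [ext_sum hpr hJ k hk (fun l => x (p l))]
      exact this
  · rintro ⟨h1, h2⟩ y hy hy1
    rw [sum_un hp hd]
    rw [Finset.mem_union, Finset.mem_image] at hy
    rcases hy with hy | ⟨k, -, rfl⟩
    · exact h1 ⟨y, hy⟩ (Finset.mem_filter.2 ⟨Finset.mem_univ _, hy1⟩)
    · have hk := (hJ k).1 hy1
      have := h2 k hk
      rw [ext_sum hpr hJ k hk (fun l => x (p l))] at this
      exact this

theorem gdK_iff (k : ℕ) (hp : Function.Injective p) (hpr : ∀ i, (p i).Prime ∧ p i ≠ 2)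
    (hd : ∀ i, p i ∉ S₀) (hJ : ∀ i, Hc G (p i) ↔ i ∈ J1) :
    GdK G f k (S₀ ∪ univ.image p) ↔ GdAK k (univ.filter fun u : S₀ => Hc G (u : ℕ)) J1
      (fun u v : S₀ => nr u v) (fun (u : S₀) l => nr u (p l)) (fun k (u : S₀) => nr (p k) u)
      (Pool.Agent.Y703.CQ.ext fun e : prs J1 => nr (p e.1.1) (p e.1.2))
      (fun u : S₀ => f u) (fun k => f (p k)) := by
  unfold GdK GdAK
  have hsup : ∀ (c : S₀ → ZMod 2) (d : ι → ZMod 2),
      (∀ u, u ∉ univ.filter (fun u : S₀ => Hc G (u : ℕ)) → c u = 0) → (∀ l, l ∉ J1 → d l = 0) →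
      ∀ q, ¬ (q ∈ S₀ ∪ univ.image p ∧ Hc G q) → glue S₀ p c d q = 0 := by
    intro c d hc0 hd0 q hq
    by_cases h1 : q ∈ S₀
    · rw [show glue S₀ p c d q = c ⟨q, h1⟩ from glue_left c d ⟨q, h1⟩]
      exact hc0 _ fun hu => hq ⟨Finset.mem_union_left _ h1, (Finset.mem_filter.1 hu).2⟩
    · by_cases h2 : ∃ l, p l = q
      · obtain ⟨l, rfl⟩ := h2
        rw [glue_right hp hd]
        exact hd0 l fun hl => hq ⟨Finset.mem_union_right _
          (Finset.mem_image_of_mem _ (Finset.mem_univ _)), (hJ l).2 hl⟩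
      · unfold glue
        rw [dif_neg h1, dif_neg h2]
  refine Iff.of_eq (congrArg (fun n => n = 2 ^ k) (Nat.card_congr
    { toFun := fun x => ⟨(fun u => x.1 u, fun l => x.1 (p l)), ?_, ?_, ?_, ?_⟩
      invFun := fun z => ⟨glue S₀ p z.1.1 z.1.2, ?_, ?_⟩
      left_inv := ?_
      right_inv := ?_ }))
  · intro u hu
    exact x.2.1 _ fun h => hu (Finset.mem_filter.2 ⟨Finset.mem_univ _, h.2⟩)
  · intro l hl
    exact x.2.1 _ fun h => hl ((hJ l).1 h.2)
  · exact ((sol_iff f hp hpr hd hJ x.1 x.2.1).1 x.2.2).1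
  · exact ((sol_iff f hp hpr hd hJ x.1 x.2.1).1 x.2.2).2
  · exact hsup _ _ z.2.1 z.2.2.1
  · rw [sol_iff f hp hpr hd hJ _ (hsup _ _ z.2.1 z.2.2.1)]
    simp only [glue_left, glue_right hp hd]
    exact ⟨z.2.2.2.1, z.2.2.2.2⟩
  · intro x
    refine Subtype.ext (funext fun q => ?_)
    by_cases h1 : q ∈ S₀
    · exact glue_left _ _ (⟨q, h1⟩ : S₀)
    · by_cases h2 : ∃ l, p l = q
      · obtain ⟨l, rfl⟩ := h2
        exact glue_right hp hd _ _ l
      · have h3 : x.1 q = 0 := by
          refine x.2.1 q fun h => ?_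
          rw [Finset.mem_union, Finset.mem_image] at h
          rcases h.1 with h4 | ⟨l, -, h4⟩
          · exact h1 h4
          · exact h2 ⟨l, h4⟩
        show glue S₀ p _ _ q = x.1 q
        rw [h3]
        unfold glue
        rw [dif_neg h1, dif_neg h2]
  · intro z
    refine Subtype.ext (Prod.ext (funext fun u => ?_) (funext fun l => ?_))
    · exact glue_left _ _ u
    · exact glue_right hp hd _ _ l

end one

/-- **The count in a box.** -/
theorem t_BOXK : S_BOXK := by
  intro hEQ k C₀ hC₀ hLA G f ι _ _ J1 C X κ S₀ _ hκ hCX hHB hS₀ hC hdis hne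
  set cc : ℝ := C₀ * (4 ^ S₀.card / 2 ^ J1.card) with hcc
  set R : ℝ := 2 ^ (prs J1).card * (κ * ∏ j, (X j : ℝ)) with hR
  have hC0 : 0 ≤ C₀ := zero_le_one.trans hC₀
  have hcc0 : 0 ≤ cc := mul_nonneg hC0 (by positivity)
  have hR0 : 0 ≤ R := mul_nonneg (by positivity)
    (mul_nonneg hκ (Finset.prod_nonneg fun j _ => by positivity))
  -- facts on tuples
  have hinj : ∀ p ∈ Fintype.piFinset C, Function.Injective p := by
    intro p hp i j hij
    rw [Fintype.mem_piFinset] at hp
    by_contra hne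
    have h1 := Finset.disjoint_left.1 (hdis i j hne) (hp i)
    rw [hij] at h1
    exact h1 (hp j)
  have hJ : ∀ p ∈ Fintype.piFinset C, ∀ i, Hc G (p i) ↔ i ∈ J1 := by
    intro p hp i
    rw [Fintype.mem_piFinset] at hp
    exact (hC i _ (hp i)).2.2.2.symm
  have hd : ∀ p ∈ Fintype.piFinset C, ∀ i, p i ∉ S₀ := by
    intro p hp i
    rw [Fintype.mem_piFinset] at hp
    exact (hC i _ (hp i)).2.2.1
  have hpr : ∀ p ∈ Fintype.piFinset C, ∀ i, (p i).Prime ∧ p i ≠ 2 := by
    intro p hp i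
    rw [Fintype.mem_piFinset] at hp
    exact ⟨(hC i _ (hp i)).1, (hC i _ (hp i)).2.1⟩
  have hU1 : (univ.filter fun u : S₀ => Hc G (u : ℕ)).card ≤ S₀.card := by
    refine (Finset.card_le_univ _).trans ?_
    rw [Fintype.card_coe]
  -- the part with given labels
  have h1 : ∀ β : ι → Lb S₀, LN G S₀ J1 β →
      |(((Fintype.piFinset C).filter fun p => (fun i => lb f S₀ (p i)) = β ∧
          GdK G f k (S₀ ∪ univ.image p)).card : ℝ) -
        ck k * (((Fintype.piFinset C).filter fun p => (fun i => lb f S₀ (p i)) = β).card : ℝ)| ≤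
      cc * (((Fintype.piFinset C).filter fun p => (fun i => lb f S₀ (p i)) = β).card : ℝ) + R := by
    intro β hβ
    by_cases hemp : ((Fintype.piFinset C).filter fun p => (fun i => lb f S₀ (p i)) = β) = ∅
    · have he2 : ((Fintype.piFinset C).filter fun p => (fun i => lb f S₀ (p i)) = β ∧
          GdK G f k (S₀ ∪ univ.image p)) = ∅ := by
        rw [← Finset.filter_filter, hemp, Finset.filter_empty]
      rw [he2, hemp]
      simpa using hR0
    obtain ⟨p₀, hp₀⟩ := Finset.nonempty_iff_ne_empty.2 hemp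
    rw [Finset.mem_filter] at hp₀
    obtain ⟨hp₀, hp₀β⟩ := hp₀
    set C' : ι → Finset ℕ := fun i => (C i).filter fun q => lb f S₀ q = β i with hC'
    have hpi : (Fintype.piFinset C).filter (fun p => (fun i => lb f S₀ (p i)) = β) =
        Fintype.piFinset C' := by
      ext p
      simp only [Finset.mem_filter, Fintype.mem_piFinset, hC']
      constructor
      · rintro ⟨h2, h3⟩ i
        exact ⟨h2 i, congrFun h3 i⟩
      · intro h2
        exact ⟨fun i => (h2 i).1, funext fun i => (h2 i).2⟩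
    have h2 := hLA S₀ ι (univ.filter fun u : S₀ => Hc G (u : ℕ)) J1 hne
      (fun u v => nr u v) (fun u l => (β l).1 u) (fun k u => (β k).2.1 u) (fun u => f u)
      (fun k => (β k).2.2)
      (by
        intro u hu v hv
        exact nr_symm (hS₀ u u.2).1 (Finset.mem_filter.1 hu).2.1 (hS₀ v v.2).1 (hS₀ v v.2).2)
      (by
        intro u hu k hk
        have h3 := congrFun hp₀β k
        rw [← h3]
        exact nr_symm (hS₀ u u.2).1 (Finset.mem_filter.1 hu).2.1 (hpr p₀ hp₀ k).1 (hpr p₀ hp₀ k).2)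
      (by
        rintro w hw0 ⟨u, hu⟩
        have hu8 : Hc G (u : ℕ) := by
          by_contra h8
          exact hu (hw0 u fun hu' => h8 (Finset.mem_filter.1 hu').2)
        obtain ⟨k, hk, hk2⟩ := hβ w ⟨u, hu8, hu⟩
        refine ⟨k, hk, ?_⟩
        rw [Finset.sum_filter] at hk2
        intro h0
        apply hk2
        refine Eq.trans ?_ h0
        refine Finset.sum_congr rfl fun v _ => ?_
        split_ifs with h8
        · rfl
        · rw [hw0 v fun hv => h8 (Finset.mem_filter.1 hv).2, zero_mul])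
    set Q : (prs J1 → ZMod 2) → Prop := fun α => GdAK k (univ.filter fun u : S₀ => Hc G (u : ℕ))
      J1 (fun u v : S₀ => nr u v) (fun (u : S₀) l => (β l).1 u) (fun k (u : S₀) => (β k).2.1 u)
      (Pool.Agent.Y703.CQ.ext α) (fun u : S₀ => f u) (fun k => (β k).2.2) with hQ
    have h3 := hEQ ι J1 C' X κ hκ
      (fun i => (Finset.card_le_card (Finset.filter_subset _ _)).trans (hCX i))
      (HB_sub hHB fun i q => lb f S₀ q = β i) Q
    have h4 : ((Fintype.piFinset C).filter fun p => (fun i => lb f S₀ (p i)) = β ∧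
        GdK G f k (S₀ ∪ univ.image p)) = ((Fintype.piFinset C').filter fun p =>
          Q fun e => nr (p e.1.1) (p e.1.2)) := by
      rw [← hpi, Finset.filter_filter]
      refine Finset.filter_congr fun p hp => ?_
      refine and_congr_right fun hl => ?_
      rw [gdK_iff f k (hinj p hp) (hpr p hp) (hd p hp) (hJ p hp)]
      subst hl
      exact Iff.rfl
    have h5 : (((Fintype.piFinset C').card : ℕ) : ℝ) = ∏ j, ((C' j).card : ℝ) := by
      rw [Fintype.card_piFinset]
      push_cast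
      rfl
    rw [h4, hpi, h5]
    have h2' : |((univ.filter Q).card : ℝ) / 2 ^ (prs J1).card - ck k| ≤ cc := by
      refine h2.trans ?_
      rw [hcc]
      refine mul_le_mul_of_nonneg_left ?_ hC0
      refine div_le_div_of_nonneg_right ?_ (by positivity)
      exact pow_le_pow_right₀ (by norm_num) hU1
    set n : ℝ := (((Fintype.piFinset C').filter fun p =>
          Q fun e => nr (p e.1.1) (p e.1.2)).card : ℝ) with hn
    set q : ℝ := ((univ.filter Q).card : ℝ) / 2 ^ (prs J1).card with hq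
    set P : ℝ := ∏ j, ((C' j).card : ℝ) with hP
    have hP0 : 0 ≤ P := Finset.prod_nonneg fun j _ => by positivity
    have h6 : |n - ck k * P| ≤ |n - q * P| + |q - ck k| * P := by
      have h7 : n - ck k * P = (n - q * P) + (q - ck k) * P := by ring
      have h8 : |(q - ck k) * P| = |q - ck k| * P := by rw [abs_mul, abs_of_nonneg hP0]
      rw [h7, ← h8]
      exact abs_add_le _ _
    have h7 : |q - ck k| * P ≤ cc * P := mul_le_mul_of_nonneg_right h2' hP0
    have h8 : |n - q * P| ≤ R := h3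
    linarith
  -- sum over the labels
  set LL := univ.filter (fun β : ι → Lb S₀ => LN G S₀ J1 β) with hLL
  have hfib : ∀ T : (ι → ℕ) → Prop,
      (((Fintype.piFinset C).filter fun p => Nd G S₀ (univ.image p) ∧ T p).card : ℝ) =
      ∑ β ∈ LL, (((Fintype.piFinset C).filter fun p =>
        (fun i => lb f S₀ (p i)) = β ∧ T p).card : ℝ) := by
    intro T
    rw [Finset.card_eq_sum_card_fiberwise (f := fun (p : ι → ℕ) (i : ι) => lb f S₀ (p i))
      (t := LL) (by
        intro p hp
        rw [Finset.mem_coe, Finset.mem_filter] at hp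
        rw [Finset.mem_coe, hLL, Finset.mem_filter]
        exact ⟨Finset.mem_univ _, (nd_iff f (hJ p hp.1)).1 hp.2.1⟩)]
    push_cast
    refine Finset.sum_congr rfl fun β hβ => ?_
    rw [hLL, Finset.mem_filter] at hβ
    congr 2
    ext p
    simp only [Finset.mem_filter]
    constructor
    · rintro ⟨⟨h3, h4, h4'⟩, h5⟩
      exact ⟨h3, h5, h4'⟩
    · rintro ⟨h3, h4, h5⟩
      refine ⟨⟨h3, ?_, h5⟩, h4⟩
      rw [nd_iff f (hJ p h3), h4]
      exact hβ.2
  have hf1 := hfib fun p => GdK G f k (S₀ ∪ univ.image p)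
  have hf2 := hfib fun _ => True
  simp only [and_true] at hf2
  rw [hf1, hf2, Finset.mul_sum, ← Finset.sum_sub_distrib]
  refine (Finset.abs_sum_le_sum_abs _ _).trans ?_
  refine (Finset.sum_le_sum fun β hβ => h1 β (Finset.mem_filter.1 hβ).2).trans ?_
  rw [Finset.sum_add_distrib, ← Finset.mul_sum, Finset.sum_const, nsmul_eq_mul]
  have h5 : ((LL.card : ℕ) : ℝ) ≤ 2 ^ ((2 * S₀.card + 1) * Fintype.card ι) := by
    have h6 : LL.card ≤ Fintype.card (ι → Lb S₀) := Finset.card_le_univ _
    rw [Fintype.card_fun, Fintype.card_prod, Fintype.card_prod, Fintype.card_fun, ZMod.card,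
      Fintype.card_coe, ← pow_succ, ← pow_add, ← pow_mul] at h6
    have h7 : (S₀.card + (S₀.card + 1)) * Fintype.card ι = (2 * S₀.card + 1) * Fintype.card ι := by
      ring
    rw [h7] at h6
    exact_mod_cast h6
  have h6 := mul_le_mul_of_nonneg_right h5 hR0
  rw [pow_add, mul_assoc]
  linarith

end Pool.Agent.U79.GD
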